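import Pool.Agent.H223.SR.Trans

/-!
# MP_d22ea4_an, Q2: the support of the microlocal Weyl measure without equiregularity (disproof)

The torus `Tor 6 = (ℝ/ℤ)^6` with coordinates `q₀, …, q₅`, the Lebesgue measure and the orthonormal
frame `∂₀`, `∂₁ + cos(2πq₀) ∂₂`, `∂₃`, `∂₄ + cos(2πq₃) ∂₅` of the distribution `D` (the product of
two Martinet type structures in dimension three). Here `r = 3`, the microlocal Weyl measure `W`
exists, and its support is not `SΣ₂`.

How the definitions (in `Pool.Agent.H223.SR.Defs` and `Pool.Agent.H223.SR.Small`) match the problem
file:

* `SubRiem d k`: a sub-Riemannian structure on `Tor d`, given by a global orthonormal frame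
  `X_1, …, X_k` of `D` (periodic vector fields of `ℝ^d`), with `Lie(D) = TM`; `flag S.X i q` is
  `D_i(q)`, the span of the values at `q` of the brackets of length at most `i` of sections of `D`;
* `SubRiem.lap`: `Δ = - ∑ X_i^* X_i` with respect to the Lebesgue measure; `EigenBasis`: an
  orthonormal basis of `L²` of smooth eigenfunctions of `-Δ` with finitely many eigenvalues in each
  `(-∞, Λ]` (by hypoellipticity these are the eigenbases of the Friedrichs extension);
* `Sph d`: the unit sphere of the sup norm, which represents the fibres of `S^*M`; `SSigma S j`:
  `SΣ_j`;
* `Symbol d`: real symbols of order zero; `PosQuant Op`: `Op` is a positive quantization: real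
  linear, nonnegative symbols go to nonnegative operators, and `Op a` is the standard quantization
  of the torus up to a compact operator; `Exist S`: there are an eigenbasis and a positive
  quantization (so the next definition is not vacuous);
* `WeylMeasure S W`: `W` is a probability measure and for every eigenbasis, every positive
  quantization and every symbol `a` the means of `⟨Op a φ_j, φ_j⟩` over `λ_j ≤ Λ` tend to `∫ a dW`.

Outline of the proof. The eigenfunctions are the products `e(m₁q₁ + n₁q₂ + m₂q₄ + n₂q₅) u(q₀) v(q₃)`
with eigenfunctions `u` of `-u'' + (2π)² (m₁ + n₁ cos 2πx)² u = λ₁ u`, and the same for `v`. The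
counting function of one factor grows like `Λ² log Λ`, where all dyadic scales `Λ ≪ |n| ≪ Λ^{3/2}`
contribute the same; so for most pairs with `λ₁ + λ₂ ≤ Λ` both `|n₁|, |n₂|` are much larger than `Λ`,
and one of them is much larger than the other. Then both `u` and `v` are concentrated near the
zeros of the sine (where `|m| ≈ |n|`), and the measure `W` lives on the 32 families of covectors over
`q₀, q₃ ∈ {0, 1/2}` with directions `(0, ±1, ±1, 0, 0, 0)` or `(0, 0, 0, 0, ±1, ±1)`, while `SΣ₂` contains
the covector direction `(0, -1, 1, 0, 0, 0)` at all points with `q₀ = 0` and arbitrary `q₃`.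
-/

set_option autoImplicit false

open MeasureTheory Set Filter Topology

namespace Pool.Agent.Results.MP_d22ea4_an.NonEquiregularSupport

open Pool.Agent.H223.SR

/-- **Disproof of Q2.** There is a sub-Riemannian structure on the six-dimensional torus such that
an eigenbasis of `-Δ` and a positive quantization exist, the microlocal Weyl measure `W` exists,
and the support of `W` is different from `SΣ_{r-1}`, where `r` is the least number with `D_r = TM`. -/
theorem result : ∃ S : SubRiem 6 4, Exist S ∧
    ∃ W : Measure (Tor 6 × Sph 6), WeylMeasure S W ∧
    ∃ r, IsLeast {r | ∀ q, flag S.X r q = ⊤} r ∧ W.support ≠ SSigma S (r - 1) :=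
  main_small

end Pool.Agent.Results.MP_d22ea4_an.NonEquiregularSupport
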